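import Mathlib

set_option autoImplicit false

open Finset

namespace Pool.Agent.Y253.Br

/-- the binomial coefficient `α (α - 1) ⋯ (α - k + 1) / k!` -/
noncomputable def bc (α : ℝ) (k : ℕ) : ℝ := (∏ j ∈ range k, (α - (j : ℝ))) / (k.factorial : ℝ)

/-- the partial sums -/
noncomputable def A (α : ℝ) (n : ℕ) (x : ℂ) : ℂ := ∑ k ∈ range (n + 1), (bc α k : ℂ) * x ^ k

/-- the value at `1` -/
noncomputable def A1 (α : ℝ) (n : ℕ) : ℝ := ∑ k ∈ range (n + 1), bc α k

@[simp] theorem bc_zero (α : ℝ) : bc α 0 = 1 := by simp [bc]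
@[simp] theorem bc_one (α : ℝ) : bc α 1 = α := by simp [bc]

theorem bc_succ (α : ℝ) (k : ℕ) : bc α (k + 1) = bc α k * (α - k) / (k + 1) := by
  unfold bc
  rw [prod_range_succ, Nat.factorial_succ]
  push_cast
  field_simp

theorem bc_mul (α : ℝ) (k : ℕ) : (k + 1) * bc α (k + 1) = bc α k * (α - k) := by
  rw [bc_succ]; field_simp

theorem bc_up (α : ℝ) (k : ℕ) : ((k:ℝ) + 1) * bc (α + 1) (k + 1) = (α + 1) * bc α k := by
  unfold bc
  rw [prod_range_succ', Nat.factorial_succ]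
  have : ∏ j ∈ range k, (α + 1 - ((j + 1 : ℕ) : ℝ)) = ∏ j ∈ range k, (α - (j : ℝ)) :=
    prod_congr rfl fun j _ => by push_cast; ring
  rw [this]
  push_cast
  field_simp
  ring

theorem pascal (α : ℝ) (k : ℕ) : bc (α + 1) (k + 1) = bc α (k + 1) + bc α k := by
  have h1 := bc_up α k
  have h2 := bc_mul α k
  have h3 : ((k:ℝ) + 1) * bc (α + 1) (k + 1) = (k + 1) * (bc α (k + 1) + bc α k) := by
    rw [h1, mul_add, h2]; ring
  have h4 : ((k:ℝ) + 1) ≠ 0 := by positivity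
  exact mul_left_cancel₀ h4 h3

theorem A_succ (α : ℝ) (n : ℕ) (x : ℂ) : A α (n + 1) x = A α n x + (bc α (n + 1) : ℂ) * x ^ (n + 1) := by
  unfold A; rw [sum_range_succ]

theorem A1_succ (α : ℝ) (n : ℕ) : A1 α (n + 1) = A1 α n + bc α (n + 1) := by
  unfold A1; rw [sum_range_succ]

theorem A_pascal (α : ℝ) (n : ℕ) (x : ℂ) : A (α + 1) (n + 1) x = A α (n + 1) x + x * A α n x := by
  induction n with
  | zero =>
    simp only [A, zero_add, sum_range_succ, range_zero, sum_empty, bc_zero, bc_one]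
    push_cast
    ring
  | succ n ih =>
    rw [A_succ, ih, A_succ α (n + 1), A_succ α n, pascal]
    push_cast
    ring

theorem A1_pascal (α : ℝ) (n : ℕ) : A1 (α + 1) (n + 1) = A1 α (n + 1) + A1 α n := by
  induction n with
  | zero =>
    simp only [A1, zero_add, sum_range_succ, range_zero, sum_empty, bc_zero, bc_one]
    ring
  | succ n ih =>
    rw [A1_succ, ih, A1_succ α (n + 1), A1_succ α n, pascal]
    ring

/-- the coefficient inequality for the exponent `α` and all indices -/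
def P (α : ℝ) : Prop := ∀ (n : ℕ) (x : ℂ), ‖x‖ = 1 → ‖A α n x‖ ≤ A1 α n

theorem P_succ {α : ℝ} (h : P α) : P (α + 1) := by
  intro n x hx
  rcases n with _ | n
  · simp [A, A1]
  · rw [A_pascal, A1_pascal]
    refine (norm_add_le _ _).trans ?_
    rw [norm_mul, hx, one_mul]
    exact add_le_add (h (n + 1) x hx) (h n x hx)

/-! ### exponents in `[0, 1]`: the value at `-1` -/

/-- the alternating sums -/
noncomputable def E (a : ℝ) (N : ℕ) : ℝ := ∑ k ∈ range (N + 1), (-1) ^ k * bc a k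

theorem E_eq (a : ℝ) (N : ℕ) : E a N = ∏ k ∈ range N, (1 - a / (k + 1)) ∧
    (-1) ^ (N + 1) * bc a (N + 1) = - (a / (N + 1)) * E a N := by
  induction N with
  | zero => simp [E, bc]
  | succ N ih =>
    have h1 : E a (N + 1) = E a N + (-1) ^ (N + 1) * bc a (N + 1) := by
      unfold E; rw [sum_range_succ]
    have h2 : E a (N + 1) = E a N * (1 - a / (N + 1)) := by rw [h1, ih.2]; ring
    refine ⟨by rw [h2, ih.1, prod_range_succ], ?_⟩
    rw [h2, bc_succ, pow_succ]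
    have h3 := ih.2
    have : (-1 : ℝ) ^ (N + 1) * -1 * (bc a (N + 1) * (a - ((N + 1 : ℕ) : ℝ)) / (((N + 1 : ℕ) : ℝ) + 1)) =
        ((-1) ^ (N + 1) * bc a (N + 1)) * ((((N + 1 : ℕ) : ℝ) - a) / (((N + 1 : ℕ) : ℝ) + 1)) := by ring
    rw [this, h3]
    push_cast
    have h4 : (N:ℝ) + 1 ≠ 0 := by positivity
    have h5 : (N:ℝ) + 1 + 1 ≠ 0 := by positivity
    field_simp

theorem E_nonneg {a : ℝ} (ha1 : a ≤ 1) (N : ℕ) : 0 ≤ E a N := by
  rw [(E_eq a N).1]
  refine prod_nonneg fun k _ => ?_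
  have : a / ((k:ℝ) + 1) ≤ 1 := by
    rw [div_le_one (by positivity)]
    have : (0:ℝ) ≤ k := Nat.cast_nonneg k
    linarith
  linarith

theorem E_le_one {a : ℝ} (ha0 : 0 ≤ a) (ha1 : a ≤ 1) (N : ℕ) : E a N ≤ 1 := by
  rw [(E_eq a N).1]
  refine prod_le_one (fun k _ => ?_) (fun k _ => ?_)
  · have : a / ((k:ℝ) + 1) ≤ 1 := by
      rw [div_le_one (by positivity)]
      have : (0:ℝ) ≤ k := Nat.cast_nonneg k
      linarith
    linarith
  · have : 0 ≤ a / ((k:ℝ) + 1) := by positivity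
    linarith

theorem sgn {a : ℝ} (ha0 : 0 ≤ a) (ha1 : a ≤ 1) (N : ℕ) : (-1) ^ (N + 1) * bc a (N + 1) ≤ 0 := by
  rw [(E_eq a N).2]
  have := E_nonneg ha1 N
  have : 0 ≤ a / ((N:ℝ) + 1) := by positivity
  nlinarith

theorem sum_even {a : ℝ} (ha0 : 0 ≤ a) (ha1 : a ≤ 1) (i : ℕ) :
    ∑ j ∈ range i, (- bc a (2 * (j + 1))) ≤ 1 - E a (2 * i) := by
  induction i with
  | zero => simp [E]
  | succ i ih =>
    rw [sum_range_succ]
    have h1 : E a (2 * (i + 1)) = E a (2 * i) + (-1) ^ (2 * i + 1) * bc a (2 * i + 1) +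
        (-1) ^ (2 * i + 1 + 1) * bc a (2 * i + 1 + 1) := by
      unfold E
      rw [show 2 * (i + 1) + 1 = 2 * i + 1 + 1 + 1 by ring, sum_range_succ, sum_range_succ]
    have h2 := sgn ha0 ha1 (2 * i)
    have h3 : (-1 : ℝ) ^ (2 * i + 1 + 1) = 1 := by
      rw [show 2 * i + 1 + 1 = 2 * (i + 1) by ring, pow_mul]; norm_num
    rw [h3] at h1
    have h4 : 2 * (i + 1) = 2 * i + 1 + 1 := by ring
    rw [h1, h4]
    linarith

/-! ### exponents in `[1, 2]` -/

theorem sgn2 {α : ℝ} (h1 : 1 ≤ α) (h2 : α ≤ 2) (k : ℕ) : 0 ≤ (-1) ^ k * bc α (k + 2) := by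
  induction k with
  | zero =>
    rw [pow_zero, one_mul, zero_add, bc_succ, bc_one]
    push_cast
    have : 0 ≤ α * (α - 1) := mul_nonneg (by linarith) (by linarith)
    positivity
  | succ k ih =>
    rw [show k + 1 + 2 = (k + 2) + 1 by ring, bc_succ, pow_succ]
    have e : (-1 : ℝ) ^ k * -1 * (bc α (k + 2) * (α - ((k + 2 : ℕ) : ℝ)) / (((k + 2 : ℕ) : ℝ) + 1)) =
      ((-1) ^ k * bc α (k + 2)) * ((((k + 2 : ℕ) : ℝ) - α) / (((k + 2 : ℕ) : ℝ) + 1)) := by ring
    rw [e]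
    refine mul_nonneg ih (div_nonneg ?_ (by positivity))
    push_cast
    have : (0:ℝ) ≤ k := Nat.cast_nonneg k
    linarith

theorem norm_sq_lin (p r : ℝ) (x : ℂ) (hx : ‖x‖ = 1) :
    ‖(p : ℂ) + r * x‖ ^ 2 = (p + r) ^ 2 - 2 * p * r * (1 - x.re) := by
  have h1 : x.re ^ 2 + x.im ^ 2 = 1 := by
    have := Complex.sq_norm x
    rw [hx, Complex.normSq_apply] at this
    nlinarith
  rw [Complex.sq_norm, Complex.normSq_apply]
  simp only [Complex.add_re, Complex.ofReal_re, Complex.mul_re, Complex.ofReal_im, zero_mul,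
    sub_zero, Complex.add_im, Complex.mul_im, add_zero, zero_add]
  linear_combination r ^ 2 * h1

theorem norm_lin_one {α : ℝ} (h1 : 1 ≤ α) (x : ℂ) (hx : ‖x‖ = 1) :
    ‖(1 : ℂ) + α * x‖ + (1 - x.re) / (1 + α) * α ≤ 1 + α := by
  have h := norm_sq_lin 1 α x hx
  have hre : 0 ≤ 1 - x.re := by have := Complex.re_le_norm x; rw [hx] at this; linarith
  have hre2 : 1 - x.re ≤ 2 := by
    have := Complex.abs_re_le_norm x; rw [hx] at this; have := (abs_le.mp this).1; linarith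
  have hpos : 0 < 1 + α := by linarith
  set u := (1 - x.re) / (1 + α) * α with hu
  have hu1 : u ≤ 1 + α := by
    rw [hu, div_mul_eq_mul_div, div_le_iff₀ hpos]
    nlinarith
  have e : u * (1 + α) = (1 - x.re) * α := by rw [hu]; field_simp
  have h2 : ‖(1 : ℂ) + α * x‖ ≤ (1 + α) - u := by
    refine le_of_sq_le_sq ?_ (by linarith)
    push_cast at h
    rw [h]
    nlinarith [sq_nonneg u]
  linarith

theorem norm_lin_two {p r c : ℝ} (hr : 0 ≤ r) (hc : 0 ≤ c) (hpr : r ≤ p)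
    (hrel : p * r ≤ (p - r) * (c * r)) (x : ℂ) (hx : ‖x‖ = 1) :
    ‖(p : ℂ) + ((-r : ℝ) : ℂ) * x‖ ≤ (p - r) + (1 - x.re) * (c * r) := by
  have h := norm_sq_lin p (-r) x hx
  have hre : 0 ≤ 1 - x.re := by have := Complex.re_le_norm x; rw [hx] at this; linarith
  have h0 : 0 ≤ (1 - x.re) * (c * r) := by positivity
  refine le_of_sq_le_sq ?_ (by linarith)
  rw [h]
  nlinarith [sq_nonneg ((1 - x.re) * (c * r)), mul_le_mul_of_nonneg_left hrel hre]

theorem odd_case {α : ℝ} (h1 : 1 ≤ α) (h2 : α ≤ 2) (x : ℂ) (hx : ‖x‖ = 1) (i : ℕ) :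
    ‖A α (2 * i + 1) x‖ + (1 - x.re) / (1 + α) *
      (α - ∑ j ∈ range i, (2 * (j + 1) + 1) * (- bc α (2 * (j + 1) + 1))) ≤ A1 α (2 * i + 1) := by
  have hpos : 0 < 1 + α := by linarith
  induction i with
  | zero =>
    have h := norm_lin_one h1 x hx
    simpa [A, A1, sum_range_succ] using h
  | succ i ih =>
    have e1 : 2 * (i + 1) + 1 = 2 * i + 1 + 1 + 1 := by ring
    have e2 : 2 * (i + 1) = 2 * i + 2 := by ring
    rw [sum_range_succ, e1, A1_succ, A1_succ, A_succ, A_succ]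
    set p := bc α (2 * i + 1 + 1) with hp
    set r := - bc α (2 * i + 1 + 1 + 1) with hr
    have hp0 : 0 ≤ p := by
      have := sgn2 h1 h2 (2 * i)
      rwa [pow_mul, neg_one_sq, one_pow, one_mul] at this
    have hr0 : 0 ≤ r := by
      have := sgn2 h1 h2 (2 * i + 1)
      rw [pow_succ, pow_mul, neg_one_sq, one_pow, one_mul] at this
      rw [hr]
      linarith
    have hmul : ((2 * i + 3 : ℕ) : ℝ) * r = p * (((2 * i + 2 : ℕ) : ℝ) - α) := by
      have := bc_mul α (2 * i + 1 + 1)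
      rw [← hp] at this
      push_cast at this ⊢
      rw [hr]
      linarith
    have hi : (0:ℝ) ≤ i := Nat.cast_nonneg i
    push_cast at hmul
    have hpr : (2 * (i:ℝ) + 3) * (p - r) = p * (1 + α) := by linarith
    have hrp : r ≤ p := by
      have : 0 ≤ (2 * (i:ℝ) + 3) * (p - r) := by rw [hpr]; positivity
      have h3 : 0 ≤ p - r := nonneg_of_mul_nonneg_right this (by positivity)
      linarith
    have hrel : p * r ≤ (p - r) * (((2 * (i:ℝ) + 3) / (1 + α)) * r) := by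
      have : (p - r) * (((2 * (i:ℝ) + 3) / (1 + α)) * r) = ((2 * (i:ℝ) + 3) * (p - r)) / (1 + α) * r := by ring
      rw [this, hpr]
      rw [mul_div_assoc, div_self hpos.ne', mul_one]
    have hl := norm_lin_two hr0 (by positivity) hrp hrel x hx
    have hnorm : ‖A α (2 * i + 1) x + (p : ℂ) * x ^ (2 * i + 1 + 1) +
        ((bc α (2 * i + 1 + 1 + 1) : ℝ) : ℂ) * x ^ (2 * i + 1 + 1 + 1)‖ ≤
        ‖A α (2 * i + 1) x‖ + ‖(p : ℂ) + ((-r : ℝ) : ℂ) * x‖ := by
      have e : A α (2 * i + 1) x + (p : ℂ) * x ^ (2 * i + 1 + 1) +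
        ((bc α (2 * i + 1 + 1 + 1) : ℝ) : ℂ) * x ^ (2 * i + 1 + 1 + 1) =
        A α (2 * i + 1) x + x ^ (2 * i + 1 + 1) * ((p : ℂ) + ((-r : ℝ) : ℂ) * x) := by
        rw [hr]; push_cast; ring
      rw [e]
      refine (norm_add_le _ _).trans ?_
      rw [norm_mul, norm_pow, hx, one_pow, one_mul]
    have hr' : bc α (2 * i + 1 + 1 + 1) = -r := by rw [hr]; ring
    have hfin : (1 - x.re) / (1 + α) * (α - (∑ j ∈ range i, (2 * ((j:ℝ) + 1) + 1) * (- bc α (2 * (j + 1) + 1)) +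
        (2 * ((i:ℝ) + 1) + 1) * r)) = (1 - x.re) / (1 + α) * (α - ∑ j ∈ range i, (2 * ((j:ℝ) + 1) + 1) *
          (- bc α (2 * (j + 1) + 1))) - (1 - x.re) * ((2 * (i:ℝ) + 3) / (1 + α) * r) := by
      ring
    rw [hr'] at hnorm
    have hgoal : ‖A α (2 * i + 1) x + (p : ℂ) * x ^ (2 * i + 1 + 1) +
        ((-r : ℝ) : ℂ) * x ^ (2 * i + 1 + 1 + 1)‖ + (1 - x.re) / (1 + α) *
        (α - (∑ j ∈ range i, (2 * ((j:ℝ) + 1) + 1) * (- bc α (2 * (j + 1) + 1)) +
        (2 * ((i:ℝ) + 1) + 1) * r)) ≤ A1 α (2 * i + 1) + p + (-r) := by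
      rw [hfin]
      linarith
    rw [← hr'] at hgoal
    exact hgoal

theorem P_mid {α : ℝ} (h1 : 1 ≤ α) (h2 : α ≤ 2) : P α := by
  have hodd : ∀ (x : ℂ), ‖x‖ = 1 → ∀ i, ‖A α (2 * i + 1) x‖ ≤ A1 α (2 * i + 1) := by
    intro x hx i
    have h := odd_case h1 h2 x hx i
    have hs : ∑ j ∈ range i, (2 * ((j:ℝ) + 1) + 1) * (- bc α (2 * (j + 1) + 1)) ≤ α := by
      have h3 := sum_even (a := α - 1) (by linarith) (by linarith) i
      have h4 := E_nonneg (a := α - 1) (by linarith) (2 * i)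
      have h5 : ∀ j ∈ range i, (2 * ((j:ℝ) + 1) + 1) * (- bc α (2 * (j + 1) + 1)) =
          α * (- bc (α - 1) (2 * (j + 1))) := by
        intro j _
        have := bc_up (α - 1) (2 * (j + 1))
        rw [sub_add_cancel] at this
        push_cast at this
        linarith
      rw [sum_congr rfl h5, ← mul_sum]
      nlinarith
    have hre : 0 ≤ 1 - x.re := by have := Complex.re_le_norm x; rw [hx] at this; linarith
    have : 0 ≤ (1 - x.re) / (1 + α) * (α - ∑ j ∈ range i, (2 * ((j:ℝ) + 1) + 1) *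
        (- bc α (2 * (j + 1) + 1))) := mul_nonneg (div_nonneg hre (by linarith)) (by linarith)
    linarith
  intro n x hx
  rcases Nat.even_or_odd' n with ⟨i, rfl | rfl⟩
  · rcases i with _ | i
    · simp [A, A1]
    · have e : 2 * (i + 1) = 2 * i + 1 + 1 := by ring
      rw [e, A_succ, A1_succ]
      refine (norm_add_le _ _).trans (add_le_add (hodd x hx i) ?_)
      have := sgn2 h1 h2 (2 * i)
      rw [pow_mul, neg_one_sq, one_pow, one_mul] at this
      rw [norm_mul, norm_pow, hx, one_pow, mul_one, Complex.norm_real, Real.norm_eq_abs,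
        abs_of_nonneg this]
  · exact hodd x hx i

theorem P_ge {α : ℝ} (h1 : 1 ≤ α) : P α := by
  obtain ⟨N, hN⟩ : ∃ N : ℕ, α ≤ N + 2 := by
    obtain ⟨N, hN⟩ := exists_nat_ge α
    exact ⟨N, by linarith⟩
  induction N generalizing α with
  | zero => exact P_mid h1 (by simpa using hN)
  | succ N ih =>
    rcases le_or_gt α 2 with h | h
    · exact P_mid h1 h
    · have := P_succ (ih (α := α - 1) (by linarith) (by push_cast at hN; linarith))
      rwa [sub_add_cancel] at this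

/-- the value at `-1` for exponents in `[0, 1]` -/
theorem A_neg_one {a : ℝ} (ha0 : 0 ≤ a) (ha1 : a ≤ 1) (n : ℕ) : ‖A a n (-1)‖ ≤ 1 := by
  have e : A a n (-1) = ((E a n : ℝ) : ℂ) := by
    unfold A E
    push_cast
    exact sum_congr rfl fun k _ => by ring
  rw [e, Complex.norm_real, Real.norm_eq_abs, abs_of_nonneg (E_nonneg ha1 n)]
  exact E_le_one ha0 ha1 n

end Pool.Agent.Y253.Br
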