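import Mathlib
import Pool.Agent.Y253.Br.One

set_option autoImplicit false

open Finset MeasureTheory Filter Topology

namespace Pool.Agent.Y253.Br

/-- the weight `t^(n-a) (1-t)^a` -/
noncomputable def w (a : ℝ) (n : ℕ) (t : ℝ) : ℝ := t ^ ((n:ℝ) - a) * (1 - t) ^ a

/-- its integral -/
noncomputable def W (a : ℝ) (n : ℕ) : ℝ := ∫ t in (0:ℝ)..1, w a n t

section

variable {a : ℝ} (ha0 : 0 < a) (ha1 : a < 1)
include ha0 ha1

theorem w_int (n : ℕ) : IntervalIntegrable (w a n) volume 0 1 := by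
  unfold w
  refine IntervalIntegrable.mul_continuousOn ?_ ?_
  · apply intervalIntegral.intervalIntegrable_rpow'
    have : (0:ℝ) ≤ n := Nat.cast_nonneg n
    linarith
  · apply Continuous.continuousOn
    exact (Real.continuous_rpow_const ha0.le).comp (by fun_prop)

omit ha0 in
theorem w_succ (n : ℕ) {t : ℝ} (ht : 0 ≤ t) : w a (n + 1) t = t * w a n t := by
  unfold w
  rcases ht.eq_or_lt with rfl | ht
  · rw [Real.zero_rpow (by push_cast; have : (0:ℝ) ≤ n := Nat.cast_nonneg n; linarith)]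
    ring
  · have : ((n + 1 : ℕ) : ℝ) - a = ((n:ℝ) - a) + 1 := by push_cast; ring
    rw [this, Real.rpow_add_one ht.ne']
    ring

omit ha0 ha1 in
theorem w_nonneg (n : ℕ) {t : ℝ} (ht : t ∈ Set.Icc (0:ℝ) 1) : 0 ≤ w a n t :=
  mul_nonneg (Real.rpow_nonneg ht.1 _) (Real.rpow_nonneg (by linarith [ht.2]) _)

omit ha0 in
theorem w_le (n : ℕ) {t : ℝ} (ht : t ∈ Set.Icc (0:ℝ) 1) : w a n t ≤ w a 0 t := by
  induction n with
  | zero => exact le_rfl
  | succ n ih =>
    rw [w_succ ha1 n ht.1]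
    have := w_nonneg (a := a) n ht
    have := ht.2
    nlinarith

theorem W_rec (n : ℕ) : (n + 1 - a) * W a n = (n + 2) * W a (n + 1) := by
  have hn : (0:ℝ) ≤ n := Nat.cast_nonneg n
  have hF : ∫ t in (0:ℝ)..1, ((n + 1 - a) * w a n t - (n + 2) * w a (n + 1) t) =
      (fun t : ℝ => t ^ ((n:ℝ) + 1 - a) * (1 - t) ^ (a + 1)) 1 -
      (fun t : ℝ => t ^ ((n:ℝ) + 1 - a) * (1 - t) ^ (a + 1)) 0 := by
    refine intervalIntegral.integral_eq_sub_of_hasDerivAt_of_le
      (f := fun t : ℝ => t ^ ((n:ℝ) + 1 - a) * (1 - t) ^ (a + 1)) zero_le_one ?_ ?_ ?_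
    · apply Continuous.continuousOn
      exact (Real.continuous_rpow_const (by linarith)).mul
        ((Real.continuous_rpow_const (by linarith)).comp (by fun_prop))
    · intro t ht
      have h1 : HasDerivAt (fun t : ℝ => t ^ ((n:ℝ) + 1 - a)) (((n:ℝ) + 1 - a) * t ^ ((n:ℝ) + 1 - a - 1)) t :=
        Real.hasDerivAt_rpow_const (Or.inl ht.1.ne')
      have h2 : HasDerivAt (fun t : ℝ => (1 - t) ^ (a + 1)) (-1 * (a + 1) * (1 - t) ^ (a + 1 - 1)) t := by
        apply HasDerivAt.rpow_const _ (Or.inl (by linarith [ht.2]))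
        simpa using (hasDerivAt_id t).const_sub 1
      refine (h1.mul h2).congr_deriv ?_
      rw [w_succ ha1 n ht.1.le]
      unfold w
      have e1 : (n:ℝ) + 1 - a - 1 = n - a := by ring
      have e2 : a + 1 - 1 = a := by ring
      rw [e1, e2, Real.rpow_add_one (by linarith [ht.2] : (1 - t) ≠ 0)]
      have e3 : t ^ ((n:ℝ) + 1 - a) = t ^ ((n:ℝ) - a) * t := by
        rw [← Real.rpow_add_one ht.1.ne']; congr 1; ring
      rw [e3]
      ring
    · exact ((w_int ha0 ha1 n).const_mul _).sub ((w_int ha0 ha1 (n + 1)).const_mul _)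
  rw [intervalIntegral.integral_sub ((w_int ha0 ha1 n).const_mul _) ((w_int ha0 ha1 (n + 1)).const_mul _),
    intervalIntegral.integral_const_mul, intervalIntegral.integral_const_mul] at hF
  simp only [sub_self] at hF
  rw [Real.zero_rpow (by linarith), Real.zero_rpow (by linarith)] at hF
  unfold W
  linarith

theorem W_pos : 0 < W a 0 := by
  unfold W
  refine intervalIntegral.intervalIntegral_pos_of_pos_on (w_int ha0 ha1 0) (fun t ht => ?_) one_pos
  unfold w
  exact mul_pos (Real.rpow_pos_of_pos ht.1 _) (Real.rpow_pos_of_pos (by linarith [ht.2]) _)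

theorem bc_W (n : ℕ) : bc a (n + 1) = (-1) ^ n * (a / W a 0) * W a n := by
  have hW := (W_pos ha0 ha1).ne'
  induction n with
  | zero => simp [hW]
  | succ n ih =>
    have hr := W_rec ha0 ha1 n
    rw [bc_succ, ih, pow_succ]
    have h2 : ((n:ℝ) + 2) ≠ 0 := by positivity
    have h3 : W a (n + 1) = (n + 1 - a) * W a n / (n + 2) := by rw [hr]; field_simp
    rw [h3]
    push_cast
    have h4 : (n:ℝ) + 1 + 1 = n + 2 := by ring
    rw [h4]
    field_simp
    ring

end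

/-- the integrals with the kernel -/
noncomputable def K (a : ℝ) (n : ℕ) (x : ℂ) : ℂ := ∫ t in (0:ℝ)..1, (w a n t : ℂ) / (1 + x * t)

theorem ne_zero {x : ℂ} (hx : ‖x‖ ≤ 1) (hx1 : x ≠ -1) {t : ℝ} (ht : t ∈ Set.Icc (0:ℝ) 1) :
    1 + x * t ≠ 0 := by
  intro h
  have h1 : x * t = -1 := by linear_combination h
  have h2 : ‖x‖ * t = 1 := by
    have := congrArg norm h1
    rwa [norm_mul, Complex.norm_real, Real.norm_eq_abs, abs_of_nonneg ht.1, norm_neg, norm_one] at this
  have h3 : t = 1 := by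
    apply le_antisymm ht.2
    nlinarith [ht.1, ht.2, norm_nonneg x]
  apply hx1
  rw [h3] at h1
  simpa using h1

theorem ker_cont {x : ℂ} (hx : ‖x‖ ≤ 1) (hx1 : x ≠ -1) :
    ContinuousOn (fun t : ℝ => (1 + x * t)⁻¹) (Set.uIcc (0:ℝ) 1) := by
  rw [Set.uIcc_of_le zero_le_one]
  refine ContinuousOn.inv₀ (by fun_prop) (fun t ht => ne_zero hx hx1 ht)

section

variable {a : ℝ} (ha0 : 0 < a) (ha1 : a < 1)
include ha0 ha1

theorem K_int (n : ℕ) {x : ℂ} (hx : ‖x‖ ≤ 1) (hx1 : x ≠ -1) :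
    IntervalIntegrable (fun t : ℝ => (w a n t : ℂ) / (1 + x * t)) volume 0 1 := by
  simp only [div_eq_mul_inv]
  have h1 : IntervalIntegrable (fun t : ℝ => (w a n t : ℂ)) volume 0 1 :=
    ⟨(w_int ha0 ha1 n).1.ofReal, (w_int ha0 ha1 n).2.ofReal⟩
  exact IntervalIntegrable.mul_continuousOn h1 (ker_cont hx hx1)

theorem K_rec (n : ℕ) {x : ℂ} (hx : ‖x‖ ≤ 1) (hx1 : x ≠ -1) :
    K a n x + x * K a (n + 1) x = W a n := by
  unfold K W
  rw [← intervalIntegral.integral_const_mul, ← intervalIntegral.integral_add (K_int ha0 ha1 n hx hx1)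
    ((K_int ha0 ha1 (n + 1) hx hx1).const_mul x), ← intervalIntegral.integral_ofReal]
  refine intervalIntegral.integral_congr fun t ht => ?_
  rw [Set.uIcc_of_le zero_le_one] at ht
  have h := ne_zero hx hx1 ht
  rw [w_succ ha1 n ht.1]
  push_cast
  field_simp

/-- the sum of the binomial series as an integral -/
noncomputable def F (a : ℝ) (x : ℂ) : ℂ := 1 + (a / W a 0 : ℝ) * x * K a 0 x

theorem A_eq (n : ℕ) {x : ℂ} (hx : ‖x‖ ≤ 1) (hx1 : x ≠ -1) :
    A a n x + (-1) ^ n * (a / W a 0 : ℝ) * x ^ (n + 1) * K a n x = F a x := by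
  induction n with
  | zero => simp [A, F]
  | succ n ih =>
    rw [← ih, A_succ, bc_W ha0 ha1 n]
    have h := K_rec ha0 ha1 n hx hx1
    have h2 : (W a n : ℂ) = K a n x + x * K a (n + 1) x := h.symm
    rw [Complex.ofReal_mul, h2]
    push_cast
    ring

theorem K_norm_le (n : ℕ) {x : ℂ} (hx : ‖x‖ < 1) : ‖K a n x‖ ≤ (1 - ‖x‖)⁻¹ * W a 0 := by
  unfold K W
  rw [← intervalIntegral.integral_const_mul]
  refine intervalIntegral.norm_integral_le_of_norm_le zero_le_one ?_ ((w_int ha0 ha1 0).const_mul _)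
  refine Eventually.of_forall fun t ht => ?_
  have ht' : t ∈ Set.Icc (0:ℝ) 1 := ⟨ht.1.le, ht.2⟩
  have h1 : 1 - ‖x‖ ≤ ‖1 + x * t‖ := by
    have : ‖x * t‖ ≤ ‖x‖ := by
      rw [norm_mul, Complex.norm_real, Real.norm_eq_abs, abs_of_nonneg ht'.1]
      nlinarith [ht'.2, norm_nonneg x]
    have h2 : ‖(1:ℂ)‖ ≤ ‖1 + x * t‖ + ‖x * t‖ := by
      calc ‖(1:ℂ)‖ = ‖(1 + x * t) - x * t‖ := by rw [add_sub_cancel_right]
        _ ≤ _ := norm_sub_le _ _
    rw [norm_one] at h2
    linarith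
  have h0 : 0 < 1 - ‖x‖ := by linarith
  rw [norm_div, Complex.norm_real, Real.norm_eq_abs, abs_of_nonneg (w_nonneg n ht'), div_eq_inv_mul]
  have hw := w_le ha1 n ht'
  have hw0 := w_nonneg (a := a) n ht'
  gcongr

omit ha0 ha1 in
theorem choose_eq (n : ℕ) : Ring.choose (a : ℂ) n = (bc a n : ℂ) := by
  rw [← Complex.ofReal_choose]
  congr 1
  rw [Ring.choose_eq_smul, bc, smul_eq_mul, div_eq_inv_mul]
  congr 1
  induction n with
  | zero => simp
  | succ n ih =>
    rw [prod_range_succ, ← ih, descPochhammer_succ_right, Polynomial.smeval_mul]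
    simp [Polynomial.smeval_sub, Polynomial.smeval_natCast]

theorem F_eq {x : ℂ} (hx : ‖x‖ < 1) : F a x = (1 + x) ^ (a : ℂ) := by
  have hx1 : x ≠ -1 := by rintro rfl; simp at hx
  have h1 : Tendsto (fun n => A a n x) atTop (𝓝 (F a x)) := by
    have h2 : Tendsto (fun n : ℕ => (-1) ^ n * (a / W a 0 : ℝ) * x ^ (n + 1) * K a n x) atTop (𝓝 0) := by
      rw [tendsto_zero_iff_norm_tendsto_zero]
      have hb : ∀ n : ℕ, ‖(-1) ^ n * (a / W a 0 : ℝ) * x ^ (n + 1) * K a n x‖ ≤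
          |a / W a 0| * ((1 - ‖x‖)⁻¹ * W a 0) * ‖x‖ ^ (n + 1) := by
        intro n
        rw [norm_mul, norm_mul, norm_mul, norm_pow, norm_neg, norm_one, one_pow, one_mul,
          Complex.norm_real, Real.norm_eq_abs, norm_pow]
        have := K_norm_le ha0 ha1 n hx
        calc |a / W a 0| * ‖x‖ ^ (n + 1) * ‖K a n x‖
            ≤ |a / W a 0| * ‖x‖ ^ (n + 1) * ((1 - ‖x‖)⁻¹ * W a 0) := by gcongr
          _ = _ := by ring
      refine squeeze_zero (fun n => norm_nonneg _) hb ?_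
      have h3 : Tendsto (fun n : ℕ => ‖x‖ ^ (n + 1)) atTop (𝓝 0) :=
        (tendsto_pow_atTop_nhds_zero_of_lt_one (norm_nonneg x) hx).comp (tendsto_add_atTop_nat 1)
      simpa using h3.const_mul (|a / W a 0| * ((1 - ‖x‖)⁻¹ * W a 0))
    have h3 : (fun n => A a n x) = fun n => F a x - (-1) ^ n * (a / W a 0 : ℝ) * x ^ (n + 1) * K a n x := by
      ext n
      rw [← A_eq ha0 ha1 n hx.le hx1]
      ring
    rw [h3]
    simpa using (tendsto_const_nhds (x := F a x)).sub h2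
  have h4 : HasSum (fun n => (bc a n : ℂ) * x ^ n) ((1 + x) ^ (a : ℂ)) := by
    have h5 := (Complex.one_add_cpow_hasFPowerSeriesOnBall_zero (a := (a : ℂ))).hasSum
      (y := x) (by
        rw [← ENNReal.ofReal_one, Metric.eball_ofReal]
        simpa using hx)
    rw [zero_add] at h5
    have e : (fun n => (bc a n : ℂ) * x ^ n) = fun n => (binomialSeries ℂ (a : ℂ) n) fun _ => x := by
      ext n
      rw [binomialSeries_apply, choose_eq]
      simp
    rw [e]
    exact h5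
  exact tendsto_nhds_unique h1 (h4.tendsto_sum_nat.comp (tendsto_add_atTop_nat 1))

end

end Pool.Agent.Y253.Br
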