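import Mathlib
import Pool.Agent.Y253.Br.Two

set_option autoImplicit false

open MeasureTheory Filter Topology Set
open scoped ENNReal

namespace Pool.Agent.Y253.Br

/-- `|1 + x t|²` in terms of `s = (1 - re x) / 2` -/
def Q (s t : ℝ) : ℝ := (1 + t) ^ 2 - 4 * t * s

theorem Q_pos {s t : ℝ} (hs : s < 1) (ht0 : 0 ≤ t) : 0 < Q s t := by
  unfold Q
  rcases ht0.eq_or_lt with rfl | ht
  · norm_num
  · nlinarith [sq_nonneg (1 - t)]

theorem Q_zero (t : ℝ) (ht : 0 ≤ t) : √(Q 0 t) = 1 + t := by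
  unfold Q
  rw [mul_zero, sub_zero, Real.sqrt_sq (by linarith)]

/-- the substitution -/
noncomputable def z (σ t : ℝ) : ℝ := 1 - (1 - t) / √(Q σ t)

theorem z_deriv {σ t : ℝ} (hσ : σ < 1) (ht : 0 < t) :
    HasDerivAt (z σ) (2 * (1 + t) * (1 - σ) / (Q σ t * √(Q σ t))) t := by
  have hQ := Q_pos hσ ht.le
  have hs : 0 < √(Q σ t) := Real.sqrt_pos.mpr hQ
  have hsq : √(Q σ t) ^ 2 = Q σ t := Real.sq_sqrt hQ.le
  have h1 : HasDerivAt (fun t => Q σ t) (2 * (1 + t) - 4 * σ) t := by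
    unfold Q
    have a1 : HasDerivAt (fun t : ℝ => (1 + t) ^ 2) (2 * (1 + t)) t := by
      have := ((hasDerivAt_id t).const_add 1).pow 2
      refine this.congr_deriv ?_
      simp
    have a2 : HasDerivAt (fun t : ℝ => 4 * t * σ) (4 * σ) t := by
      have := ((hasDerivAt_id t).const_mul 4).mul_const σ
      refine this.congr_deriv ?_
      simp
    exact a1.sub a2
  have h2 := h1.sqrt hQ.ne'
  have h3 : HasDerivAt (fun t : ℝ => 1 - t) (-1) t := by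
    simpa using (hasDerivAt_id t).const_sub 1
  have h4 := (h3.div h2 hs.ne').const_sub 1
  refine h4.congr_deriv ?_
  rw [hsq]
  field_simp
  rw [hsq]
  unfold Q
  ring

theorem y_sq {σ t : ℝ} (hσ : σ < 1) (ht : 0 < t) :
    1 - ((1 - t) / √(Q σ t)) ^ 2 = 4 * t * (1 - σ) / Q σ t := by
  have hQ := Q_pos hσ ht.le
  rw [div_pow, Real.sq_sqrt hQ.le]
  field_simp
  unfold Q
  ring

theorem y_pos {σ t : ℝ} (hσ : σ < 1) (ht : 0 < t) (ht1 : t < 1) : 0 < (1 - t) / √(Q σ t) :=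
  div_pos (by linarith) (Real.sqrt_pos.mpr (Q_pos hσ ht.le))

theorem y_lt {σ t : ℝ} (hσ : σ < 1) (ht : 0 < t) (ht1 : t < 1) : (1 - t) / √(Q σ t) < 1 := by
  have h := y_sq hσ ht
  have h2 : 0 < 4 * t * (1 - σ) / Q σ t := div_pos (by nlinarith) (Q_pos hσ ht.le)
  have h3 := y_pos hσ ht ht1
  by_contra hc
  push Not at hc
  nlinarith

theorem z_mem {σ t : ℝ} (hσ : σ < 1) (ht : t ∈ Ioo (0:ℝ) 1) : z σ t ∈ Ioo (0:ℝ) 1 := by
  have h1 := y_pos hσ ht.1 ht.2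
  have h2 := y_lt hσ ht.1 ht.2
  unfold z
  constructor <;> linarith

theorem z_inj {σ : ℝ} (hσ : σ < 1) : InjOn (z σ) (Ioo (0:ℝ) 1) := by
  apply StrictMonoOn.injOn
  apply strictMonoOn_of_deriv_pos (convex_Ioo 0 1)
  · intro t ht
    exact (z_deriv hσ ht.1).continuousAt.continuousWithinAt
  · intro t ht
    rw [interior_Ioo] at ht
    rw [(z_deriv hσ ht.1).deriv]
    have hQ := Q_pos hσ ht.1.le
    have := ht.1
    have h1 : 0 < 1 - σ := by linarith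
    have := Real.sqrt_pos.mpr hQ
    positivity

theorem w_zero_ge {a σ t : ℝ} (ha0 : 0 < a) (hσ : σ < 1) (ht : t ∈ Ioo (0:ℝ) 1) :
    (1 - t) ^ a * (4 * t * (1 - σ)) ^ (-(a / 2)) ≤ w a 0 (z σ t) := by
  have hQ := Q_pos hσ ht.1.le
  have hy0 := y_pos hσ ht.1 ht.2
  have hy1 := y_lt hσ ht.1 ht.2
  have hysq := y_sq hσ ht.1
  have h1σ : 0 < 1 - σ := by linarith
  have ht0 := ht.1
  have ht1 : 0 < 1 - t := by linarith [ht.2]
  set y := (1 - t) / √(Q σ t) with hy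
  have hw : w a 0 (z σ t) = (1 - y) ^ (-a) * y ^ a := by
    unfold w z
    rw [← hy]
    congr 1
    · congr 1
      simp
    · congr 1
      ring
  rw [hw]
  have h2 : (1 - y ^ 2) ^ (-(a / 2)) ≤ (1 - y) ^ (-a) := by
    have h3 : (1 - y) ^ (-a) = ((1 - y) ^ 2) ^ (-(a / 2)) := by
      rw [← Real.rpow_natCast, ← Real.rpow_mul (by linarith)]
      congr 1
      push_cast
      ring
    rw [h3]
    apply Real.rpow_le_rpow_of_nonpos
    · have : 0 < 1 - y := by linarith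
      positivity
    · nlinarith
    · linarith
  have h4 : y ^ a * (1 - y ^ 2) ^ (-(a / 2)) = (1 - t) ^ a * (4 * t * (1 - σ)) ^ (-(a / 2)) := by
    rw [hysq, hy, Real.div_rpow ht1.le (Real.sqrt_nonneg _), Real.div_rpow (by positivity) hQ.le]
    have h5 : √(Q σ t) ^ a = Q σ t ^ (a / 2) := by
      rw [Real.sqrt_eq_rpow, ← Real.rpow_mul hQ.le]
      congr 1
      ring
    rw [h5, Real.rpow_neg hQ.le, div_inv_eq_mul]
    have h6 : Q σ t ^ (a / 2) ≠ 0 := (Real.rpow_pos_of_pos hQ _).ne'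
    field_simp
  rw [← h4]
  have h7 : 0 ≤ y ^ a := Real.rpow_nonneg hy0.le _
  calc y ^ a * (1 - y ^ 2) ^ (-(a / 2)) ≤ y ^ a * (1 - y) ^ (-a) := mul_le_mul_of_nonneg_left h2 h7
    _ = _ := by ring

theorem pointwise {a σ t : ℝ} (ha0 : 0 < a) (ha1 : a < 1) (hσ : σ < 1) (ht : t ∈ Ioo (0:ℝ) 1)
    {m : ℕ} (hm : 1 ≤ m) :
    w a m t * (2 * t / (Q σ t * √(Q σ t))) ≤ (2 ^ (a - 1) * (1 - σ) ^ (a / 2 - 1)) *
      (2 * (1 + t) * (1 - σ) / (Q σ t * √(Q σ t)) * w a 0 (z σ t)) := by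
  have hQ := Q_pos hσ ht.1.le
  have hsq := Real.sqrt_pos.mpr hQ
  have h1σ : 0 < 1 - σ := by linarith
  have ht0 := ht.1
  have ht1 : 0 < 1 - t := by linarith [ht.2]
  have hw := w_zero_ge ha0 hσ ht
  have hm' : (1:ℝ) ≤ m := by exact_mod_cast hm
  have h1 : (2 ^ (a - 1) * (1 - σ) ^ (a / 2 - 1)) *
      (2 * (1 + t) * (1 - σ) / (Q σ t * √(Q σ t)) * ((1 - t) ^ a * (4 * t * (1 - σ)) ^ (-(a / 2)))) ≤
      (2 ^ (a - 1) * (1 - σ) ^ (a / 2 - 1)) *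
      (2 * (1 + t) * (1 - σ) / (Q σ t * √(Q σ t)) * w a 0 (z σ t)) := by
    gcongr
  refine le_trans ?_ h1
  have e1 : (4 * t * (1 - σ)) ^ (-(a / 2)) = 2 ^ (-a) * t ^ (-(a / 2)) * (1 - σ) ^ (-(a / 2)) := by
    rw [Real.mul_rpow (by positivity) h1σ.le, Real.mul_rpow (by norm_num) ht0.le]
    congr 2
    rw [show (4:ℝ) = 2 ^ (2:ℕ) by norm_num, ← Real.rpow_natCast, ← Real.rpow_mul (by norm_num)]
    congr 1
    push_cast
    ring
  have e2 : (2:ℝ) ^ (a - 1) * 2 * 2 ^ (-a) = 1 := by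
    have : (2:ℝ) ^ (a - 1) * 2 ^ (1:ℝ) * 2 ^ (-a) = 1 := by
      rw [← Real.rpow_add (by norm_num), ← Real.rpow_add (by norm_num)]
      rw [show a - 1 + 1 + -a = 0 by ring, Real.rpow_zero]
    rwa [Real.rpow_one] at this
  have e3 : (1 - σ) ^ (a / 2 - 1) * (1 - σ) * (1 - σ) ^ (-(a / 2)) = 1 := by
    have : (1 - σ) ^ (a / 2 - 1) * (1 - σ) ^ (1:ℝ) * (1 - σ) ^ (-(a / 2)) = 1 := by
      rw [← Real.rpow_add h1σ, ← Real.rpow_add h1σ]
      rw [show a / 2 - 1 + 1 + -(a / 2) = 0 by ring, Real.rpow_zero]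
    rwa [Real.rpow_one] at this
  have e4 : (2 ^ (a - 1) * (1 - σ) ^ (a / 2 - 1)) *
      (2 * (1 + t) * (1 - σ) / (Q σ t * √(Q σ t)) * ((1 - t) ^ a * (4 * t * (1 - σ)) ^ (-(a / 2)))) =
      ((2:ℝ) ^ (a - 1) * 2 * 2 ^ (-a)) * ((1 - σ) ^ (a / 2 - 1) * (1 - σ) * (1 - σ) ^ (-(a / 2))) *
      ((1 + t) * t ^ (-(a / 2)) * (1 - t) ^ a / (Q σ t * √(Q σ t))) := by
    rw [e1]; ring
  rw [e4, e2, e3, one_mul, one_mul]
  unfold w
  have e5 : t ^ ((m:ℝ) - a) = t ^ ((m:ℝ) - a / 2) * t ^ (-(a / 2)) := by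
    rw [← Real.rpow_add ht0]; congr 1; ring
  have e6 : t ^ ((m:ℝ) - a / 2) ≤ 1 := Real.rpow_le_one ht0.le ht.2.le (by linarith)
  rw [e5]
  have h8 : 0 ≤ t ^ (-(a / 2)) := Real.rpow_nonneg ht0.le _
  have h9 : 0 ≤ (1 - t) ^ a := Real.rpow_nonneg ht1.le _
  have h10 : 0 ≤ t ^ ((m:ℝ) - a / 2) := Real.rpow_nonneg ht0.le _
  have e7 : t ^ ((m:ℝ) - a / 2) * t ^ (-(a / 2)) * (1 - t) ^ a * (2 * t / (Q σ t * √(Q σ t))) =
      (2 * t * t ^ ((m:ℝ) - a / 2)) * t ^ (-(a / 2)) * (1 - t) ^ a / (Q σ t * √(Q σ t)) := by ring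
  rw [e7]
  have h11 : 2 * t * t ^ ((m:ℝ) - a / 2) ≤ 1 + t := by
    have : 2 * t * t ^ ((m:ℝ) - a / 2) ≤ 2 * t * 1 := by gcongr
    linarith [ht.2]
  gcongr

/-- the inner integral -/
theorem inner {a σ : ℝ} (ha0 : 0 < a) (ha1 : a < 1) (hσ : σ < 1) {m : ℕ} (hm : 1 ≤ m) :
    ∫⁻ t in Ioo (0:ℝ) 1, ENNReal.ofReal (w a m t * (2 * t / (Q σ t * √(Q σ t)))) ≤
      ENNReal.ofReal (2 ^ (a - 1) * (1 - σ) ^ (a / 2 - 1) * W a 0) := by
  have h1σ : 0 < 1 - σ := by linarith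
  have hκ : 0 ≤ 2 ^ (a - 1) * (1 - σ) ^ (a / 2 - 1) := by positivity
  have hzd : ∀ t ∈ Ioo (0:ℝ) 1, HasDerivWithinAt (z σ)
      (2 * (1 + t) * (1 - σ) / (Q σ t * √(Q σ t))) (Ioo 0 1) t :=
    fun t ht => (z_deriv hσ ht.1).hasDerivWithinAt
  have hch := lintegral_image_eq_lintegral_abs_deriv_mul measurableSet_Ioo hzd (z_inj hσ)
    (fun y => ENNReal.ofReal (w a 0 y))
  have hW : ∫⁻ y in Ioo (0:ℝ) 1, ENNReal.ofReal (w a 0 y) = ENNReal.ofReal (W a 0) := by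
    unfold W
    rw [intervalIntegral.integral_of_le zero_le_one, integral_Ioc_eq_integral_Ioo,
      ofReal_integral_eq_lintegral_ofReal]
    · have := (w_int ha0 ha1 0).1
      exact this.mono_set Ioo_subset_Ioc_self
    · refine (ae_restrict_iff' measurableSet_Ioo).mpr (Eventually.of_forall fun t ht => ?_)
      exact w_nonneg 0 ⟨ht.1.le, ht.2.le⟩
  calc ∫⁻ t in Ioo (0:ℝ) 1, ENNReal.ofReal (w a m t * (2 * t / (Q σ t * √(Q σ t))))
      ≤ ∫⁻ t in Ioo (0:ℝ) 1, ENNReal.ofReal (2 ^ (a - 1) * (1 - σ) ^ (a / 2 - 1)) *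
        (ENNReal.ofReal |2 * (1 + t) * (1 - σ) / (Q σ t * √(Q σ t))| * ENNReal.ofReal (w a 0 (z σ t))) := by
        refine setLIntegral_mono' measurableSet_Ioo fun t ht => ?_
        have hQ := Q_pos hσ ht.1.le
        have hsq := Real.sqrt_pos.mpr hQ
        have ht0 := ht.1
        rw [← ENNReal.ofReal_mul (abs_nonneg _), ← ENNReal.ofReal_mul hκ]
        apply ENNReal.ofReal_le_ofReal
        rw [abs_of_pos (by positivity)]
        exact pointwise ha0 ha1 hσ ht hm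
    _ = ENNReal.ofReal (2 ^ (a - 1) * (1 - σ) ^ (a / 2 - 1)) *
        ∫⁻ t in Ioo (0:ℝ) 1, ENNReal.ofReal |2 * (1 + t) * (1 - σ) / (Q σ t * √(Q σ t))| *
          ENNReal.ofReal (w a 0 (z σ t)) := by
        rw [lintegral_const_mul' _ _ ENNReal.ofReal_ne_top]
    _ ≤ ENNReal.ofReal (2 ^ (a - 1) * (1 - σ) ^ (a / 2 - 1)) *
        ∫⁻ y in Ioo (0:ℝ) 1, ENNReal.ofReal (w a 0 y) := by
        rw [← hch]
        gcongr
        rintro _ ⟨t, ht, rfl⟩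
        exact z_mem hσ ht
    _ = _ := by rw [hW, ← ENNReal.ofReal_mul hκ]

end Pool.Agent.Y253.Br
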