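import Mathlib
import Pool.Agent.Y253.Br.Three

set_option autoImplicit false

open MeasureTheory Filter Topology Set
open scoped ENNReal

namespace Pool.Agent.Y253.Br

theorem Q_meas : Measurable (fun p : ℝ × ℝ => Q p.1 p.2) := by
  unfold Q; fun_prop

theorem stepA {σ t : ℝ} (hσ : σ < 1) (ht : 0 ≤ t) :
    HasDerivAt (fun s => 1 / √(Q s t)) (2 * t / (Q σ t * √(Q σ t))) σ := by
  have hQ := Q_pos hσ ht
  have hs : 0 < √(Q σ t) := Real.sqrt_pos.mpr hQ
  have hsq : √(Q σ t) ^ 2 = Q σ t := Real.sq_sqrt hQ.le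
  have h1 : HasDerivAt (fun s => Q s t) (- (4 * t)) σ := by
    unfold Q
    have := ((hasDerivAt_id σ).const_mul (4 * t)).const_sub ((1 + t) ^ 2)
    simpa using this
  have h2 := (h1.sqrt hQ.ne').inv hs.ne'
  simp only [one_div]
  refine h2.congr_deriv ?_
  rw [hsq]
  field_simp
  ring

theorem Q_cont {t : ℝ} : Continuous fun σ => Q σ t := by unfold Q; fun_prop

theorem diff_eq {s t : ℝ} (hs0 : 0 ≤ s) (hs : s < 1) (ht : 0 ≤ t) :
    ENNReal.ofReal (1 / √(Q s t) - 1 / (1 + t)) =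
      ∫⁻ σ in Ioo (0:ℝ) s, ENNReal.ofReal (2 * t / (Q σ t * √(Q σ t))) := by
  have hcont : ContinuousOn (fun σ => 2 * t / (Q σ t * √(Q σ t))) (Icc 0 s) := by
    have hc : Continuous fun σ => Q σ t := Q_cont
    apply ContinuousOn.div continuousOn_const
    · exact (hc.mul hc.sqrt).continuousOn
    · intro σ hσ
      have hQ := Q_pos (lt_of_le_of_lt hσ.2 hs) ht
      have := Real.sqrt_pos.mpr hQ
      positivity
  have hint : IntervalIntegrable (fun σ => 2 * t / (Q σ t * √(Q σ t))) volume 0 s :=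
    (hcont.mono (by rw [uIcc_of_le hs0])).intervalIntegrable
  have h := intervalIntegral.integral_eq_sub_of_hasDerivAt (a := 0) (b := s)
    (f := fun s => 1 / √(Q s t)) (f' := fun σ => 2 * t / (Q σ t * √(Q σ t)))
    (fun σ hσ => by
      rw [uIcc_of_le hs0] at hσ
      exact stepA (lt_of_le_of_lt hσ.2 hs) ht) hint
  rw [Q_zero t ht] at h
  rw [← h, intervalIntegral.integral_of_le hs0, integral_Ioc_eq_integral_Ioo,
    ofReal_integral_eq_lintegral_ofReal]
  · rw [intervalIntegrable_iff_integrableOn_Ioo_of_le hs0] at hint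
    exact hint
  · refine (ae_restrict_iff' measurableSet_Ioo).mpr (Eventually.of_forall fun σ hσ => ?_)
    have hQ := Q_pos (hσ.2.trans hs) ht
    have := Real.sqrt_pos.mpr hQ
    simp only [Pi.zero_apply]
    positivity

theorem stepD {a s : ℝ} (ha0 : 0 < a) (hs0 : 0 ≤ s) (hs : s < 1) :
    ∫⁻ σ in Ioo (0:ℝ) s, ENNReal.ofReal ((1 - σ) ^ (a / 2 - 1)) =
      ENNReal.ofReal (2 / a * (1 - (1 - s) ^ (a / 2))) := by
  have hd : ∀ σ ∈ uIcc 0 s, HasDerivAt (fun σ : ℝ => - (2 / a) * (1 - σ) ^ (a / 2))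
      ((1 - σ) ^ (a / 2 - 1)) σ := by
    intro σ hσ
    rw [uIcc_of_le hs0] at hσ
    have h1σ : 0 < 1 - σ := by linarith [hσ.2]
    have h1 : HasDerivAt (fun t : ℝ => 1 - t) (-1) σ := by
      simpa using (hasDerivAt_id σ).const_sub 1
    have h2 := (h1.rpow_const (p := a / 2) (Or.inl h1σ.ne')).const_mul (-(2 / a))
    refine h2.congr_deriv ?_
    field_simp
  have hcont : ContinuousOn (fun σ : ℝ => (1 - σ) ^ (a / 2 - 1)) (uIcc 0 s) := by
    rw [uIcc_of_le hs0]
    apply ContinuousOn.rpow_const (by fun_prop)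
    intro σ hσ
    left
    have : 0 < 1 - σ := by linarith [hσ.2]
    exact this.ne'
  have h := intervalIntegral.integral_eq_sub_of_hasDerivAt hd hcont.intervalIntegrable
  have e : 2 / a * (1 - (1 - s) ^ (a / 2)) = ∫ σ in (0:ℝ)..s, (1 - σ) ^ (a / 2 - 1) := by
    rw [h, sub_zero, Real.one_rpow]; ring
  rw [e, intervalIntegral.integral_of_le hs0, integral_Ioc_eq_integral_Ioo,
    ofReal_integral_eq_lintegral_ofReal]
  · have := hcont.intervalIntegrable (μ := volume)
    rw [intervalIntegrable_iff_integrableOn_Ioo_of_le hs0] at this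
    exact this
  · refine (ae_restrict_iff' measurableSet_Ioo).mpr (Eventually.of_forall fun σ hσ => ?_)
    exact Real.rpow_nonneg (by linarith [hσ.2]) _

theorem w_meas (a : ℝ) (n : ℕ) : Measurable (w a n) := by unfold w; fun_prop

/-- the key inequality as an inequality of lower integrals -/
theorem key_lintegral {a s : ℝ} (ha0 : 0 < a) (ha1 : a < 1) (hs0 : 0 ≤ s) (hs : s < 1) {m : ℕ}
    (hm : 1 ≤ m) :
    ∫⁻ t in Ioo (0:ℝ) 1, ENNReal.ofReal (w a m t * (1 / √(Q s t) - 1 / (1 + t))) ≤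
      ENNReal.ofReal (W a 0 / a * (2 ^ a * (1 - (1 - s) ^ (a / 2)))) := by
  have hWpos := W_pos ha0 ha1
  calc ∫⁻ t in Ioo (0:ℝ) 1, ENNReal.ofReal (w a m t * (1 / √(Q s t) - 1 / (1 + t)))
      = ∫⁻ t in Ioo (0:ℝ) 1, ∫⁻ σ in Ioo (0:ℝ) s,
          ENNReal.ofReal (w a m t * (2 * t / (Q σ t * √(Q σ t)))) := by
        refine setLIntegral_congr_fun measurableSet_Ioo fun t ht => ?_
        have hw := w_nonneg (a := a) m (t := t) ⟨ht.1.le, ht.2.le⟩
        rw [ENNReal.ofReal_mul hw, diff_eq hs0 hs ht.1.le,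
          ← lintegral_const_mul' _ _ ENNReal.ofReal_ne_top]
        refine lintegral_congr fun σ => ?_
        rw [ENNReal.ofReal_mul hw]
    _ = ∫⁻ σ in Ioo (0:ℝ) s, ∫⁻ t in Ioo (0:ℝ) 1,
          ENNReal.ofReal (w a m t * (2 * t / (Q σ t * √(Q σ t)))) := by
        apply lintegral_lintegral_swap
        apply Measurable.aemeasurable
        apply Measurable.ennreal_ofReal
        have h1 : Measurable fun p : ℝ × ℝ => w a m p.1 := (w_meas a m).comp measurable_fst
        have h2 : Measurable fun p : ℝ × ℝ => Q p.2 p.1 := Q_meas.comp measurable_swap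
        exact h1.mul ((measurable_fst.const_mul 2).div (h2.mul h2.sqrt))
    _ ≤ ∫⁻ σ in Ioo (0:ℝ) s, ENNReal.ofReal (2 ^ (a - 1) * W a 0) *
          ENNReal.ofReal ((1 - σ) ^ (a / 2 - 1)) := by
        refine setLIntegral_mono' measurableSet_Ioo fun σ hσ => ?_
        refine (inner ha0 ha1 (hσ.2.trans hs) hm).trans (le_of_eq ?_)
        rw [← ENNReal.ofReal_mul (by positivity)]
        congr 1
        ring
    _ = ENNReal.ofReal (2 ^ (a - 1) * W a 0) * ENNReal.ofReal (2 / a * (1 - (1 - s) ^ (a / 2))) := by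
        rw [lintegral_const_mul' _ _ ENNReal.ofReal_ne_top, stepD ha0 hs0 hs]
    _ = _ := by
        rw [← ENNReal.ofReal_mul (by positivity)]
        congr 1
        have : (2:ℝ) ^ a = 2 ^ (a - 1) * 2 := by
          rw [← Real.rpow_add_one (by norm_num)]; congr 1; ring
        rw [this]
        ring

theorem wQ_int {a s : ℝ} (ha0 : 0 < a) (ha1 : a < 1) (hs : s < 1) (m : ℕ) :
    IntervalIntegrable (fun t => w a m t * (1 / √(Q s t))) volume 0 1 := by
  refine (w_int ha0 ha1 m).mul_continuousOn ?_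
  rw [uIcc_of_le zero_le_one]
  apply ContinuousOn.div continuousOn_const
  · apply Continuous.continuousOn
    unfold Q
    fun_prop
  · intro t ht
    exact (Real.sqrt_pos.mpr (Q_pos hs ht.1)).ne'

/-- the key inequality -/
theorem key {a s : ℝ} (ha0 : 0 < a) (ha1 : a < 1) (hs0 : 0 ≤ s) (hs : s < 1) {m : ℕ}
    (hm : 1 ≤ m) :
    2 ^ a * (1 - s) ^ (a / 2) + a / W a 0 * ∫ t in (0:ℝ)..1, w a m t * (1 / √(Q s t)) ≤
      2 ^ a + a / W a 0 * ∫ t in (0:ℝ)..1, w a m t * (1 / (1 + t)) := by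
  have hWpos := W_pos ha0 ha1
  have hi1 := wQ_int ha0 ha1 hs m
  have hi2 : IntervalIntegrable (fun t => w a m t * (1 / (1 + t))) volume 0 1 := by
    have := wQ_int ha0 ha1 (s := 0) (by norm_num) m
    refine this.congr fun t ht => ?_
    rw [uIoc_of_le zero_le_one] at ht
    rw [Q_zero t ht.1.le]
  have hk := key_lintegral ha0 ha1 hs0 hs hm
  have hs1 : (1 - s) ^ (a / 2) ≤ 1 := Real.rpow_le_one (by linarith) (by linarith) (by positivity)
  have hB : 0 ≤ W a 0 / a * (2 ^ a * (1 - (1 - s) ^ (a / 2))) := by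
    have : 0 ≤ 1 - (1 - s) ^ (a / 2) := by linarith
    positivity
  have hint : ∫ t in (0:ℝ)..1, w a m t * (1 / √(Q s t) - 1 / (1 + t)) ≤
      W a 0 / a * (2 ^ a * (1 - (1 - s) ^ (a / 2))) := by
    rw [intervalIntegral.integral_of_le zero_le_one, integral_Ioc_eq_integral_Ioo,
      integral_eq_lintegral_of_nonneg_ae]
    · exact ENNReal.toReal_le_of_le_ofReal hB hk
    · refine (ae_restrict_iff' measurableSet_Ioo).mpr (Eventually.of_forall fun t ht => ?_)
      refine mul_nonneg (w_nonneg m ⟨ht.1.le, ht.2.le⟩) ?_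
      rw [sub_nonneg]
      have hQ := Q_pos hs ht.1.le
      apply one_div_le_one_div_of_le (Real.sqrt_pos.mpr hQ)
      rw [← Q_zero t ht.1.le]
      apply Real.sqrt_le_sqrt
      unfold Q
      have := ht.1
      nlinarith
    · apply Measurable.aestronglyMeasurable
      have h2 : Measurable fun t : ℝ => Q s t := Q_meas.comp (measurable_const.prodMk measurable_id)
      exact (w_meas a m).mul ((measurable_const.div h2.sqrt).sub
        (measurable_const.div (measurable_const.add measurable_id)))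
  have hsplit : ∫ t in (0:ℝ)..1, w a m t * (1 / √(Q s t) - 1 / (1 + t)) =
      (∫ t in (0:ℝ)..1, w a m t * (1 / √(Q s t))) - ∫ t in (0:ℝ)..1, w a m t * (1 / (1 + t)) := by
    rw [← intervalIntegral.integral_sub hi1 hi2]
    congr 1
    ext t
    ring
  rw [hsplit] at hint
  have h3 := mul_le_mul_of_nonneg_left hint (by positivity : 0 ≤ a / W a 0)
  have h4 : a / W a 0 * (W a 0 / a * (2 ^ a * (1 - (1 - s) ^ (a / 2)))) =
      2 ^ a * (1 - (1 - s) ^ (a / 2)) := by
    field_simp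
  rw [h4] at h3
  linarith

theorem norm_one_add {x : ℂ} (hx : ‖x‖ = 1) {t : ℝ} :
    ‖1 + x * t‖ = √(Q ((1 - x.re) / 2) t) := by
  rw [← Real.sqrt_sq (norm_nonneg (1 + x * t))]
  congr 1
  have h1 : x.re ^ 2 + x.im ^ 2 = 1 := by
    have := Complex.sq_norm x
    rw [hx, Complex.normSq_apply] at this
    nlinarith
  rw [Complex.sq_norm, Complex.normSq_apply]
  simp only [Complex.add_re, Complex.one_re, Complex.mul_re, Complex.ofReal_re, Complex.ofReal_im,
    mul_zero, sub_zero, Complex.add_im, Complex.one_im, Complex.mul_im, zero_add]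
  unfold Q
  linear_combination t ^ 2 * h1

theorem F_norm {a : ℝ} (ha0 : 0 < a) (ha1 : a < 1) {x : ℂ} (hx : ‖x‖ = 1) (hx1 : x ≠ -1) :
    ‖F a x‖ = ‖1 + x‖ ^ a := by
  -- a uniform bound for the kernel
  have hc := ker_cont hx.le hx1
  rw [uIcc_of_le zero_le_one] at hc
  obtain ⟨M, hM⟩ := isCompact_Icc.exists_bound_of_continuousOn hc
  have hM0 : 0 ≤ M := (norm_nonneg _).trans (hM 0 (by simp))
  have hK : Tendsto (fun r : ℝ => K a 0 (r * x)) (𝓝[<] 1) (𝓝 (K a 0 x)) := by
    unfold K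
    apply intervalIntegral.tendsto_integral_filter_of_dominated_convergence (fun t => w a 0 t * M)
    · filter_upwards [Ioo_mem_nhdsLT (show (0:ℝ) < 1 by norm_num)] with r hr
      apply Measurable.aestronglyMeasurable
      exact (Complex.measurable_ofReal.comp (w_meas a 0)).div (by fun_prop)
    · filter_upwards [Ioo_mem_nhdsLT (show (0:ℝ) < 1 by norm_num)] with r hr
      refine Eventually.of_forall fun t ht => ?_
      rw [uIoc_of_le zero_le_one] at ht
      have h1 := hM (r * t) ⟨mul_nonneg hr.1.le ht.1.le, by nlinarith [hr.1, hr.2, ht.1, ht.2]⟩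
      rw [div_eq_mul_inv, norm_mul, Complex.norm_real, Real.norm_eq_abs,
        abs_of_nonneg (w_nonneg 0 ⟨ht.1.le, ht.2⟩)]
      have e : (1 + (r:ℂ) * x * t) = 1 + x * ((r * t : ℝ) : ℂ) := by push_cast; ring
      rw [e]
      exact mul_le_mul_of_nonneg_left h1 (w_nonneg 0 ⟨ht.1.le, ht.2⟩)
    · exact (w_int ha0 ha1 0).mul_const M
    · refine Eventually.of_forall fun t ht => ?_
      rw [uIoc_of_le zero_le_one] at ht
      have hne := ne_zero hx.le hx1 (t := t) ⟨ht.1.le, ht.2⟩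
      have hcr : Tendsto (fun r : ℝ => (w a 0 t : ℂ) / (1 + (r:ℂ) * x * t)) (𝓝 1)
          (𝓝 ((w a 0 t : ℂ) / (1 + ((1:ℝ):ℂ) * x * t))) := by
        apply Tendsto.div tendsto_const_nhds
        · apply Continuous.tendsto
          fun_prop
        · simpa using hne
      simp only [Complex.ofReal_one, one_mul] at hcr
      exact hcr.mono_left nhdsWithin_le_nhds
  have hF : Tendsto (fun r : ℝ => ‖F a (r * x)‖) (𝓝[<] 1) (𝓝 ‖F a x‖) := by
    apply Tendsto.norm
    unfold F
    apply Tendsto.const_add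
    apply Tendsto.mul _ hK
    apply Tendsto.const_mul
    have : Tendsto (fun r : ℝ => (r:ℂ) * x) (𝓝 1) (𝓝 (((1:ℝ):ℂ) * x)) := by
      apply Continuous.tendsto
      fun_prop
    simp only [Complex.ofReal_one, one_mul] at this
    exact this.mono_left nhdsWithin_le_nhds
  have hF2 : Tendsto (fun r : ℝ => ‖F a (r * x)‖) (𝓝[<] 1) (𝓝 (‖1 + x‖ ^ a)) := by
    have h1 : Tendsto (fun r : ℝ => ‖1 + (r:ℂ) * x‖ ^ a) (𝓝[<] 1) (𝓝 (‖1 + x‖ ^ a)) := by
      have : Tendsto (fun r : ℝ => ‖1 + (r:ℂ) * x‖ ^ a) (𝓝 1) (𝓝 (‖1 + ((1:ℝ):ℂ) * x‖ ^ a)) := by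
        apply Continuous.tendsto
        exact (Real.continuous_rpow_const ha0.le).comp (by fun_prop)
      simp only [Complex.ofReal_one, one_mul] at this
      exact this.mono_left nhdsWithin_le_nhds
    refine h1.congr' ?_
    filter_upwards [Ioo_mem_nhdsLT (show (0:ℝ) < 1 by norm_num)] with r hr
    have hn : ‖(r:ℂ) * x‖ < 1 := by
      rw [norm_mul, hx, mul_one, Complex.norm_real, Real.norm_eq_abs, abs_of_pos hr.1]
      exact hr.2
    rw [F_eq ha0 ha1 hn, Complex.norm_cpow_real]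
  exact tendsto_nhds_unique hF hF2

end Pool.Agent.Y253.Br
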