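import Mathlib
import Pool.Agent.Y253.Br.Four

set_option autoImplicit false

open MeasureTheory Filter Topology Set

namespace Pool.Agent.Y253.Br

theorem K_one (a : ℝ) (n : ℕ) :
    K a n 1 = ((∫ t in (0:ℝ)..1, w a n t * (1 / (1 + t)) : ℝ) : ℂ) := by
  unfold K
  rw [← intervalIntegral.integral_ofReal]
  refine intervalIntegral.integral_congr fun t _ => ?_
  push_cast
  ring

theorem A_one (a : ℝ) (n : ℕ) : A a n 1 = ((A1 a n : ℝ) : ℂ) := by
  unfold A A1
  push_cast
  simp

theorem one_ne : (1:ℂ) ≠ -1 := by norm_num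

theorem F_one {a : ℝ} (ha0 : 0 < a) (ha1 : a < 1) : F a 1 = ((2 ^ a : ℝ) : ℂ) := by
  have h := F_norm ha0 ha1 (x := 1) norm_one one_ne
  have hW := W_pos ha0 ha1
  have hI : 0 ≤ ∫ t in (0:ℝ)..1, w a 0 t * (1 / (1 + t)) := by
    refine intervalIntegral.integral_nonneg zero_le_one fun t ht => ?_
    have := w_nonneg (a := a) 0 ht
    have := ht.1
    positivity
  have e : F a 1 = ((1 + a / W a 0 * ∫ t in (0:ℝ)..1, w a 0 t * (1 / (1 + t)) : ℝ) : ℂ) := by
    unfold F
    rw [K_one]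
    push_cast
    ring
  have e2 : ‖(1:ℂ) + 1‖ = 2 := by norm_num
  rw [e2, e, Complex.norm_real, Real.norm_eq_abs, abs_of_nonneg (by positivity)] at h
  rw [e, h]

theorem A1_eq {a : ℝ} (ha0 : 0 < a) (ha1 : a < 1) {m : ℕ} (hm : Odd m) :
    A1 a m = 2 ^ a + a / W a 0 * ∫ t in (0:ℝ)..1, w a m t * (1 / (1 + t)) := by
  have h := A_eq ha0 ha1 m (x := 1) norm_one.le one_ne
  rw [hm.neg_one_pow, F_one ha0 ha1, K_one, A_one, one_pow] at h
  have h2 : ((A1 a m : ℝ) : ℂ) =
      ((2 ^ a + a / W a 0 * ∫ t in (0:ℝ)..1, w a m t * (1 / (1 + t)) : ℝ) : ℂ) := by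
    push_cast at h ⊢
    linear_combination h
  exact_mod_cast h2

theorem K_norm {a : ℝ} (ha0 : 0 < a) (ha1 : a < 1) (m : ℕ) {x : ℂ} (hx : ‖x‖ = 1)
    (hs : (1 - x.re) / 2 < 1) :
    ‖K a m x‖ ≤ ∫ t in (0:ℝ)..1, w a m t * (1 / √(Q ((1 - x.re) / 2) t)) := by
  unfold K
  refine intervalIntegral.norm_integral_le_of_norm_le zero_le_one ?_ (wQ_int ha0 ha1 hs m)
  refine Eventually.of_forall fun t ht => ?_
  rw [norm_div, norm_one_add hx, Complex.norm_real, Real.norm_eq_abs,
    abs_of_nonneg (w_nonneg m ⟨ht.1.le, ht.2⟩), div_eq_mul_one_div]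

theorem main_small {a : ℝ} (ha0 : 0 < a) (ha1 : a < 1) {m : ℕ} (hm : Odd m) {x : ℂ}
    (hx : ‖x‖ = 1) : ‖A a m x‖ ≤ A1 a m := by
  have hW := W_pos ha0 ha1
  rw [A1_eq ha0 ha1 hm]
  have hm1 : 1 ≤ m := hm.pos
  by_cases hx1 : x = -1
  · rw [hx1]
    refine (A_neg_one ha0.le ha1.le m).trans ?_
    have h1 : (1:ℝ) ≤ 2 ^ a := Real.one_le_rpow (by norm_num) ha0.le
    have hI : 0 ≤ ∫ t in (0:ℝ)..1, w a m t * (1 / (1 + t)) := by
      refine intervalIntegral.integral_nonneg zero_le_one fun t ht => ?_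
      have := w_nonneg (a := a) m ht
      have := ht.1
      positivity
    have : 0 ≤ a / W a 0 * ∫ t in (0:ℝ)..1, w a m t * (1 / (1 + t)) := by positivity
    linarith
  · have h1 : x.re ^ 2 + x.im ^ 2 = 1 := by
      have := Complex.sq_norm x
      rw [hx, Complex.normSq_apply] at this
      nlinarith
    have hre : -1 < x.re := by
      rcases lt_or_ge (-1) x.re with h | h
      · exact h
      · exfalso
        apply hx1
        have h2 : x.im ^ 2 = 0 := by nlinarith [sq_nonneg x.im]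
        have h3 : x.im = 0 := by simpa using h2
        have h4 : x.re = -1 := by nlinarith [sq_nonneg (x.re - 1), sq_nonneg (x.re + 1)]
        apply Complex.ext
        · simp [h4]
        · simp [h3]
    have hre1 : x.re ≤ 1 := by nlinarith [sq_nonneg x.im, sq_nonneg (x.re - 1)]
    set s := (1 - x.re) / 2 with hsdef
    have hs0 : 0 ≤ s := by rw [hsdef]; linarith
    have hs : s < 1 := by rw [hsdef]; linarith
    refine le_trans ?_ (key ha0 ha1 hs0 hs hm1)
    have hA := A_eq ha0 ha1 m hx.le hx1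
    rw [hm.neg_one_pow] at hA
    have hA2 : A a m x = F a x + (a / W a 0 : ℝ) * x ^ (m + 1) * K a m x := by
      linear_combination hA
    have hF := F_norm ha0 ha1 hx hx1
    have h1x : ‖1 + x‖ = 2 * √(1 - s) := by
      have := norm_one_add hx (t := 1)
      simp only [Complex.ofReal_one, mul_one] at this
      rw [this, ← hsdef]
      unfold Q
      have e : ((1:ℝ) + 1) ^ 2 - 4 * 1 * s = 2 ^ 2 * (1 - s) := by ring
      rw [e, Real.sqrt_mul (by norm_num), Real.sqrt_sq (by norm_num)]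
    rw [h1x, Real.mul_rpow (by norm_num) (Real.sqrt_nonneg _), Real.sqrt_eq_rpow,
      ← Real.rpow_mul (by linarith)] at hF
    have e2 : 1 / 2 * a = a / 2 := by ring
    rw [e2] at hF
    rw [hA2]
    refine (norm_add_le _ _).trans ?_
    rw [hF, norm_mul, norm_mul, norm_pow, hx, one_pow, mul_one, Complex.norm_real,
      Real.norm_eq_abs, abs_of_nonneg (by positivity)]
    have := K_norm ha0 ha1 m hx hs
    rw [← hsdef] at this
    gcongr

/-- the inequality in all cases -/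
theorem main_all {α : ℝ} (hα : 0 < α) {m : ℕ} (hm : Odd m) {x : ℂ} (hx : ‖x‖ = 1) :
    ‖A α m x‖ ≤ A1 α m := by
  rcases lt_or_ge α 1 with h | h
  · exact main_small hα h hm hx
  · exact P_ge h m x hx

end Pool.Agent.Y253.Br
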